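import Pool.Agent.Helper38.IA.St

set_option autoImplicit false

namespace Pool.Agent.Helper48.IA38

open Finset Pool.Agent.Helper93.IA Pool.Agent.Helper38.IA

private lemma sum_symm {ι : Type} [Fintype ι] {n : ℕ} (e : ι ≃ Fin n) (f : ι → ℝ) :
    ∑ i : Fin n, f (e.symm i) = ∑ a, f a := Equiv.sum_comp e.symm f

private lemma sum_dir {ι : Type} [Fintype ι] {n : ℕ} (e : ι ≃ Fin n) (f : Fin n → ℝ) :
    ∑ a : ι, f (e a) = ∑ i, f i := Equiv.sum_comp e f

theorem hF1 : StF1 := by
  intro hFZ α β γ _ _ _ n k hα hβ hγ A B C u v w hA hB hC h1 h2 h3 h4 h5 h6 hu hv hw hn hk hq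
  obtain ⟨x, hx0, hx1, hx2, hx3, hx4⟩ := hFZ n k
    (fun i j => A ((Fintype.equivFinOfCardEq hα).symm i) ((Fintype.equivFinOfCardEq hβ).symm j))
    (fun i j => B ((Fintype.equivFinOfCardEq hβ).symm i) ((Fintype.equivFinOfCardEq hγ).symm j))
    (fun i j => C ((Fintype.equivFinOfCardEq hγ).symm i) ((Fintype.equivFinOfCardEq hα).symm j))
    (fun i => u ((Fintype.equivFinOfCardEq hα).symm i))
    (fun i => v ((Fintype.equivFinOfCardEq hβ).symm i))
    (fun i => w ((Fintype.equivFinOfCardEq hγ).symm i))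
    (fun i j => hA _ _) (fun i j => hB _ _) (fun i j => hC _ _)
    (fun r => by
      rw [← h1]
      exact sum_symm (Fintype.equivFinOfCardEq hβ) (fun c => A _ c))
    (fun r => by
      rw [← h2]
      exact sum_symm (Fintype.equivFinOfCardEq hγ) (fun s => C s _))
    (fun c => by
      rw [← h3]
      exact sum_symm (Fintype.equivFinOfCardEq hγ) (fun s => B _ s))
    (fun c => by
      rw [← h4]
      exact sum_symm (Fintype.equivFinOfCardEq hα) (fun r => A r _))
    (fun s => by
      rw [← h5]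
      exact sum_symm (Fintype.equivFinOfCardEq hα) (fun r => C _ r))
    (fun s => by
      rw [← h6]
      exact sum_symm (Fintype.equivFinOfCardEq hβ) (fun c => B c _))
    (fun r => hu _) (fun c => hv _) (fun s => hw _) hn hk
    (by
      have hs := sum_symm (Fintype.equivFinOfCardEq hα) u
      rw [hs]
      exact hq)
  refine ⟨fun a b c => x ((Fintype.equivFinOfCardEq hα) a) ((Fintype.equivFinOfCardEq hβ) b)
    ((Fintype.equivFinOfCardEq hγ) c), fun r c s => hx0 _ _ _, fun r c s => ?_, fun r c => ?_,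
    fun c s => ?_, fun s r => ?_⟩
  · have h := hx1 ((Fintype.equivFinOfCardEq hα) r) ((Fintype.equivFinOfCardEq hβ) c)
      ((Fintype.equivFinOfCardEq hγ) s)
    simpa using h
  · have h := hx2 ((Fintype.equivFinOfCardEq hα) r) ((Fintype.equivFinOfCardEq hβ) c)
    have e := sum_dir (Fintype.equivFinOfCardEq hγ) (fun s =>
      x ((Fintype.equivFinOfCardEq hα) r) ((Fintype.equivFinOfCardEq hβ) c) s)
    rw [e, h]
    simp
  · have h := hx3 ((Fintype.equivFinOfCardEq hβ) c) ((Fintype.equivFinOfCardEq hγ) s)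
    have e := sum_dir (Fintype.equivFinOfCardEq hα) (fun r =>
      x r ((Fintype.equivFinOfCardEq hβ) c) ((Fintype.equivFinOfCardEq hγ) s))
    rw [e, h]
    simp
  · have h := hx4 ((Fintype.equivFinOfCardEq hγ) s) ((Fintype.equivFinOfCardEq hα) r)
    have e := sum_dir (Fintype.equivFinOfCardEq hβ) (fun c =>
      x ((Fintype.equivFinOfCardEq hα) r) c ((Fintype.equivFinOfCardEq hγ) s))
    rw [e, h]
    simp

end Pool.Agent.Helper48.IA38
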