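import Pool.Agent.Helper38.IA.StN

set_option autoImplicit false

namespace Pool.Agent.Helper48.IA38

open Finset Pool.Agent.Helper93.IA Pool.Agent.Helper17.IAN Pool.Agent.Helper38.IA

private lemma fv_sub {I Ω : Type} [Fintype I] (E : I → Ω → Prop) (g : I → ℝ)
    (hg : ∀ i, 0 ≤ g i ∧ g i ≤ 1) (σ1 σ0 : Ω) (S : Finset I)
    (hS : ∀ i, ¬ (E i σ1 ↔ E i σ0) → i ∈ S) : |Fv E g σ1 - Fv E g σ0| ≤ S.card := by
  classical
  have h1 : Fv E g σ1 - Fv E g σ0 =
      ∑ i, ((if E i σ1 then g i else 0) - (if E i σ0 then g i else 0)) := by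
    unfold Fv
    rw [Finset.sum_sub_distrib]
  have h2 : ∑ i, ((if E i σ1 then g i else 0) - (if E i σ0 then g i else 0)) =
      ∑ i ∈ S, ((if E i σ1 then g i else 0) - (if E i σ0 then g i else 0)) := by
    symm
    apply Finset.sum_subset (Finset.subset_univ S)
    intro i _ hi
    have h3 : E i σ1 ↔ E i σ0 := by
      by_contra h
      exact hi (hS i h)
    by_cases h4 : E i σ1
    · rw [if_pos h4, if_pos (h3.1 h4), sub_self]
    · rw [if_neg h4, if_neg (fun h => h4 (h3.2 h)), sub_self]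
  rw [h1, h2]
  have h5 : ∀ i ∈ S, |(if E i σ1 then g i else 0) - (if E i σ0 then g i else 0)| ≤ (1 : ℝ) := by
    intro i _
    obtain ⟨h6, h7⟩ := hg i
    rw [abs_le]
    constructor <;> split_ifs <;> linarith
  calc |∑ i ∈ S, ((if E i σ1 then g i else 0) - (if E i σ0 then g i else 0))|
      ≤ ∑ i ∈ S, |(if E i σ1 then g i else 0) - (if E i σ0 then g i else 0)| :=
        Finset.abs_sum_le_sum_abs _ _
    _ ≤ ∑ i ∈ S, (1 : ℝ) := Finset.sum_le_sum h5
    _ = S.card := by simp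

private lemma fv_eq {I Ω : Type} [Fintype I] (E : I → Ω → Prop) (g : I → ℝ)
    (hg : ∀ i, 0 ≤ g i ∧ g i ≤ 1) (σ1 σ0 : Ω) (h : ∀ i, E i σ1 ↔ E i σ0) :
    Fv E g σ1 = Fv E g σ0 := by
  have h1 := fv_sub E g hg σ1 σ0 ∅ (fun i hi => absurd (h i) hi)
  simp only [Finset.card_empty, Nat.cast_zero] at h1
  have h2 : Fv E g σ1 - Fv E g σ0 = 0 := abs_eq_zero.1 (le_antisymm h1 (abs_nonneg _))
  linarith

theorem hNSM : StNSM := by
  intro α β γ I _ _ _ n E g hE hg
  obtain ⟨L, hL, h⟩ := hE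
  have key1 : ∀ (σ : α × β → Option γ) (e : α × β) (u : γ),
      |Fv E g (Function.update σ e (some u)) - Fv E g (Function.update σ e none)| ≤ 2 := by
    intro σ e u
    obtain ⟨S, hS, hS'⟩ := (h σ e).1 u
    refine (fv_sub E g hg _ _ S hS').trans ?_
    exact_mod_cast hS
  have key2 : ∀ (σ : α × β → Option γ) (e : α × β), e ∉ L → ∃ S : Finset γ, S.card ≤ 2 ∧ ∀ u,
      Fv E g (Function.update σ e (some u)) ≠ Fv E g (Function.update σ e none) → u ∈ S := by
    intro σ e he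
    obtain ⟨S, hS, hS'⟩ := (h σ e).2 he
    refine ⟨S, hS, fun u hu => ?_⟩
    by_contra hn
    apply hu
    apply fv_eq E g hg
    intro i
    by_contra hc
    exact hn (hS' u i hc)
  refine ⟨⟨L, hL, fun σ e => ⟨fun u => key1 σ e u, fun he => key2 σ e he⟩⟩,
    ⟨L, hL, fun σ e => ⟨fun u => ?_, fun he => ?_⟩⟩⟩
  · have h1 := key1 σ e u
    rw [← abs_neg] at h1
    have h2 : -(Fv E g (Function.update σ e (some u)) - Fv E g (Function.update σ e none)) =
        -Fv E g (Function.update σ e (some u)) - -Fv E g (Function.update σ e none) := by ring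
    rwa [h2] at h1
  · obtain ⟨S, hS, hS'⟩ := key2 σ e he
    refine ⟨S, hS, fun u hu => hS' u ?_⟩
    intro hc
    exact hu (by simp only [hc])

end Pool.Agent.Helper48.IA38
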